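import Mathlib

namespace Pool.Agent.Results.MP_dabbe0_pr.NotUniversal43

/-- Unnormalised weight of the visible state `v`: the sum over all hidden states `h` of
`exp (b . v + c . h + v^T W h)`. -/
noncomputable def weight (n m : ℕ) (W : Fin n → Fin m → ℝ) (b : Fin n → ℝ) (c : Fin m → ℝ)
    (v : Fin n → Fin 2) : ℝ :=
  ∑ h : Fin m → Fin 2, Real.exp (∑ i, b i * ((v i : ℕ) : ℝ) + ∑ j, c j * ((h j : ℕ) : ℝ)
    + ∑ i, ∑ j, ((v i : ℕ) : ℝ) * W i j * ((h j : ℕ) : ℝ))

/-- The binary RBM model: all distributions on the `n`-cube of the form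
`v ↦ weight v / Z` for real parameters `W, b, c`. -/
def RBM (n m : ℕ) : Set ((Fin n → Fin 2) → ℝ) :=
  {p | ∃ (W : Fin n → Fin m → ℝ) (b : Fin n → ℝ) (c : Fin m → ℝ),
    ∀ v, p v = weight n m W b c v / ∑ v', weight n m W b c v'}

end Pool.Agent.Results.MP_dabbe0_pr.NotUniversal43
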