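import Pool.Agent.H98.NU43.Defs

/-!
The binary restricted Boltzmann machine with 4 visible and 3 hidden units is not a universal
approximator (Q2 of MP_dabbe0_pr, answered in the negative).

Idea. The logarithm of an RBM distribution is an affine function plus one softplus unit per
hidden unit.  For a two dimensional face of the cube in directions i, j a hidden unit contributes
to the mixed second difference with the sign of W i k * W j k.  The distribution
p(v) proportional to exp (4 * (-1)^|v|) needs both signs for all six pairs of directions, which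
forces, up to symmetry, a unique sign pattern of the 4 x 3 weight matrix.  At the balanced vertex
of this pattern the required interactions on two complementary faces are contradictory.
-/

namespace Pool.Agent.Results.MP_dabbe0_pr.NotUniversal43

noncomputable def sp (x : ℝ) : ℝ := Real.log (1 + Real.exp x)

noncomputable def D (x s t : ℝ) : ℝ := sp x + sp (x + s + t) - sp (x + s) - sp (x + t)

theorem sp_pos (x : ℝ) : 0 < sp x := by
  unfold sp
  apply Real.log_pos
  have := Real.exp_pos x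
  linarith

theorem sp_eq (x : ℝ) : sp x = x + sp (-x) := by
  unfold sp
  have h1 : (1 + Real.exp x) = Real.exp x * (1 + Real.exp (-x)) := by
    rw [mul_add, ← Real.exp_add]; simp [add_comm]
  rw [h1, Real.log_mul (Real.exp_pos x).ne' (by positivity), Real.log_exp]

theorem sp_gt (x : ℝ) : x < sp x := by
  rw [sp_eq]
  have := sp_pos (-x)
  linarith

theorem sp_mono {x y : ℝ} (h : x ≤ y) : sp x ≤ sp y := by
  unfold sp
  apply Real.log_le_log (by positivity)
  have := Real.exp_le_exp.2 h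
  linarith

theorem sp_lip {x y : ℝ} (h : x ≤ y) : sp y ≤ sp x + (y - x) := by
  have h1 := sp_eq x
  have h2 := sp_eq y
  have h3 := sp_mono (neg_le_neg h)
  linarith

theorem sp_zero : sp 0 = Real.log 2 := by
  unfold sp; norm_num

theorem sp_le_pos {x : ℝ} (h : 0 ≤ x) : sp x ≤ x + Real.log 2 := by
  have := sp_lip h
  rw [sp_zero] at this
  linarith

theorem sp_le_neg {x : ℝ} (h : x ≤ 0) : sp x ≤ Real.log 2 := by
  have := sp_mono h
  rw [sp_zero] at this
  exact this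

theorem D_flip (x s t : ℝ) : D x s t = D (-x) (-s) (-t) := by
  unfold D
  rw [sp_eq x, sp_eq (x+s+t), sp_eq (x+s), sp_eq (x+t)]
  have h1 : -(x + s + t) = -x + -s + -t := by ring
  have h2 : -(x + s) = -x + -s := by ring
  have h3 : -(x + t) = -x + -t := by ring
  rw [h1, h2, h3]
  ring

theorem D_comm (x s t : ℝ) : D x s t = D x t s := by
  unfold D
  have : x + s + t = x + t + s := by ring
  rw [this]; ring

theorem D_nonneg {x s t : ℝ} (hs : 0 ≤ s) (ht : 0 ≤ t) : 0 ≤ D x s t := by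
  unfold D sp
  have h0 := Real.exp_pos x
  have h1 : Real.exp (x + s + t) = Real.exp x * Real.exp s * Real.exp t := by
    rw [Real.exp_add, Real.exp_add]
  have h2 : Real.exp (x + s) = Real.exp x * Real.exp s := Real.exp_add _ _
  have h3 : Real.exp (x + t) = Real.exp x * Real.exp t := Real.exp_add _ _
  have h4 : 1 ≤ Real.exp s := Real.one_le_exp hs
  have h5 : 1 ≤ Real.exp t := Real.one_le_exp ht
  have key : (1 + Real.exp (x+s)) * (1 + Real.exp (x + t)) ≤ (1 + Real.exp x) * (1 + Real.exp (x + s + t)) := by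
    rw [h1, h2, h3]
    nlinarith [mul_nonneg h0.le (mul_nonneg (sub_nonneg.2 h4) (sub_nonneg.2 h5))]
  have := Real.log_le_log (by positivity) key
  rw [Real.log_mul (by positivity) (by positivity), Real.log_mul (by positivity) (by positivity)] at this
  linarith

theorem D_nonneg' {x s t : ℝ} (hs : s ≤ 0) (ht : t ≤ 0) : 0 ≤ D x s t := by
  rw [D_flip]
  exact D_nonneg (by linarith) (by linarith)

theorem D_nonpos {x s t : ℝ} (hs : 0 ≤ s) (ht : t ≤ 0) : D x s t ≤ 0 := by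
  have h := D_nonneg (x := x + t) hs (by linarith : 0 ≤ -t)
  unfold D at *
  have h1 : x + t + s + -t = x + s := by ring
  have h2 : x + t + s = x + s + t := by ring
  have h3 : x + t + -t = x := by ring
  rw [h1, h2, h3] at h
  linarith

theorem D_nonpos' {x s t : ℝ} (hs : s ≤ 0) (ht : 0 ≤ t) : D x s t ≤ 0 := by
  rw [D_comm]; exact D_nonpos ht hs

/-- upper bounds for nonnegative increments -/
theorem D_le_s {x s t : ℝ} (hs : 0 ≤ s) (ht : 0 ≤ t) : D x s t ≤ s := by
  unfold D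
  have h1 := sp_lip (show x + t ≤ x + s + t by linarith)
  have h2 := sp_mono (show x ≤ x + s by linarith)
  linarith

theorem D_le_t {x s t : ℝ} (hs : 0 ≤ s) (ht : 0 ≤ t) : D x s t ≤ t := by
  rw [D_comm]; exact D_le_s ht hs

theorem D_le_sp {x s t : ℝ} (hs : 0 ≤ s) (ht : 0 ≤ t) : D x s t ≤ sp (-x) := by
  unfold D
  have h1 := sp_lip (show x + t ≤ x + s + t by linarith)
  have h2 := sp_gt (x + s)
  have h3 := sp_eq x
  linarith

theorem D_le_s' {x s t : ℝ} (hs : s ≤ 0) (ht : t ≤ 0) : D x s t ≤ -s := by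
  rw [D_flip]; exact D_le_s (by linarith) (by linarith)

theorem D_le_t' {x s t : ℝ} (hs : s ≤ 0) (ht : t ≤ 0) : D x s t ≤ -t := by
  rw [D_flip]; exact D_le_t (by linarith) (by linarith)

theorem D_le_sp' {x s t : ℝ} (hs : s ≤ 0) (ht : t ≤ 0) : D x s t ≤ sp x := by
  rw [D_flip]
  have := D_le_sp (x := -x) (show 0 ≤ -s by linarith) (show 0 ≤ -t by linarith)
  rwa [neg_neg] at this

theorem of_sp_large {z M : ℝ} (hM : Real.log 2 < M) (h : M ≤ sp z) : M - Real.log 2 ≤ z := by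
  rcases le_total 0 z with hz | hz
  · have := sp_le_pos hz; linarith
  · have := sp_le_neg hz; linarith

theorem mixed_lower {x s t M : ℝ} (h1 : M ≤ s) (h2 : M ≤ -t) (h3 : M ≤ x + s) (h4 : M ≤ -(x + t)) :
    M - 2 * Real.log 2 ≤ - D x s t := by
  unfold D
  have e1 := sp_gt (x + s)
  have e2 := sp_pos (x + s)
  have e3 := sp_gt (x + t)
  have e4 := sp_pos (x + t)
  rcases le_total 0 x with hx | hx
  · have f1 := sp_le_pos hx
    rcases le_total 0 (x + s + t) with hy | hy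
    · have f2 := sp_le_pos hy
      linarith
    · have f2 := sp_le_neg hy
      linarith
  · have f1 := sp_le_neg hx
    rcases le_total 0 (x + s + t) with hy | hy
    · have f2 := sp_le_pos hy
      linarith
    · have f2 := sp_le_neg hy
      linarith


theorem coreA {a0 a1 a2 a3 a4 b0 b1 b2 b3 b4 c0 c1 c2 c3 c4 : ℝ}
    (ha1 : 0 ≤ a1) (ha2 : 0 ≤ a2) (ha3 : a3 ≤ 0) (ha4 : a4 ≤ 0)
    (hb1 : 0 ≤ b1) (hb2 : b2 ≤ 0) (hb3 : 0 ≤ b3) (hb4 : b4 ≤ 0)
    (hc1 : 0 ≤ c1) (hc2 : c2 ≤ 0) (hc3 : c3 ≤ 0) (hc4 : 0 ≤ c4)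
    (h12 : Real.log 2 < D a0 a1 a2 + D b0 b1 b2 + D c0 c1 c2)
    (h34 : Real.log 2 < D a0 a3 a4 + D b0 b3 b4 + D c0 c3 c4) : False := by
  have e1 := D_nonpos (x := b0) hb1 hb2
  have e2 := D_nonpos (x := c0) hc1 hc2
  have e3 := D_nonpos (x := b0) hb3 hb4
  have e4 := D_nonpos' (x := c0) hc3 hc4
  have f1 := D_le_sp (x := a0) ha1 ha2
  have f2 := D_le_sp' (x := a0) ha3 ha4
  rcases le_total 0 a0 with h | h
  · have := sp_le_neg (show -a0 ≤ 0 by linarith)
    linarith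
  · have := sp_le_neg h
    linarith

/-- A unit with sign vector (+,-,-,+) (coordinates `p q r s`, minority pairs `p s` and `q r`)
whose minority interactions at the neighbours are large contributes strongly on mixed pairs. -/
theorem unit_lower {x p q M : ℝ} {y1 z1 : ℝ} {y2 z2 : ℝ}
    (hM : Real.log 2 < M)
    (hp : 0 ≤ p) (hq : q ≤ 0) (hy : 0 ≤ y1) (hz : z1 ≤ 0)
    (hy2 : y2 = x + q) (hz2 : z2 = x + p)
    (h1 : M ≤ D y2 p y1) (h2 : M ≤ D z2 q z1) :
    M - 3 * Real.log 2 ≤ - D x p q := by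
  have l2 : 0 < Real.log 2 := Real.log_pos (by norm_num)
  subst hy2 hz2
  have e1 := D_le_s (x := x + q) hp hy
  have e2 := of_sp_large hM (h1.trans (D_le_sp (x := x + q) hp hy))
  have e3 := D_le_s' (x := x + p) hq hz
  have e4 := of_sp_large hM (h2.trans (D_le_sp' (x := x + p) hq hz))
  have := mixed_lower (x := x) (s := p) (t := q) (M := M - Real.log 2) (by linarith) (by linarith)
    (by linarith) (by linarith)
  linarith

theorem coreB {a0 a1 a2 a3 a4 b0 b1 b2 b3 b4 c0 c1 c2 c3 c4 M K : ℝ}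
    (ha1 : 0 ≤ a1) (ha2 : 0 ≤ a2) (ha3 : a3 ≤ 0) (ha4 : a4 ≤ 0)
    (hb1 : 0 ≤ b1) (hb2 : b2 ≤ 0) (hb3 : 0 ≤ b3) (hb4 : b4 ≤ 0)
    (hc1 : 0 ≤ c1) (hc2 : c2 ≤ 0) (hc3 : c3 ≤ 0) (hc4 : 0 ≤ c4)
    (hM : Real.log 2 < M) (hMK : 7 * Real.log 2 < 2 * M - K)
    (h12 : -K ≤ D a0 a1 a2 + D b0 b1 b2 + D c0 c1 c2)
    (h34 : -K ≤ D a0 a3 a4 + D b0 b3 b4 + D c0 c3 c4)
    (h13_2 : M ≤ D (a0 + a2) a1 a3 + D (b0 + b2) b1 b3 + D (c0 + c2) c1 c3)
    (h13_4 : M ≤ D (a0 + a4) a1 a3 + D (b0 + b4) b1 b3 + D (c0 + c4) c1 c3)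
    (h24_1 : M ≤ D (a0 + a1) a2 a4 + D (b0 + b1) b2 b4 + D (c0 + c1) c2 c4)
    (h24_3 : M ≤ D (a0 + a3) a2 a4 + D (b0 + b3) b2 b4 + D (c0 + c3) c2 c4)
    (h14_2 : M ≤ D (a0 + a2) a1 a4 + D (b0 + b2) b1 b4 + D (c0 + c2) c1 c4)
    (h14_3 : M ≤ D (a0 + a3) a1 a4 + D (b0 + b3) b1 b4 + D (c0 + c3) c1 c4)
    (h23_1 : M ≤ D (a0 + a1) a2 a3 + D (b0 + b1) b2 b3 + D (c0 + c1) c2 c3)
    (h23_4 : M ≤ D (a0 + a4) a2 a3 + D (b0 + b4) b2 b3 + D (c0 + c4) c2 c3) : False := by
  have l2 : 0 < Real.log 2 := Real.log_pos (by norm_num)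
  -- unit B on the pair 12
  have B12 : M - 3 * Real.log 2 ≤ - D b0 b1 b2 := by
    apply unit_lower (y1 := b3) (z1 := b4) hM hb1 hb2 hb3 hb4 rfl rfl
    · have := D_nonpos (x := a0 + a2) ha1 ha3
      have := D_nonpos (x := c0 + c2) hc1 hc3
      linarith
    · have := D_nonpos (x := a0 + a1) ha2 ha4
      have := D_nonpos' (x := c0 + c1) hc2 hc4
      linarith
  -- unit C on the pair 12
  have C12 : M - 3 * Real.log 2 ≤ - D c0 c1 c2 := by
    apply unit_lower (y1 := c4) (z1 := c3) hM hc1 hc2 hc4 hc3 rfl rfl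
    · have := D_nonpos (x := a0 + a2) ha1 ha4
      have := D_nonpos (x := b0 + b2) hb1 hb4
      linarith
    · have := D_nonpos (x := a0 + a1) ha2 ha3
      have := D_nonpos' (x := b0 + b1) hb2 hb3
      linarith
  -- unit B on the pair 34
  have B34 : M - 3 * Real.log 2 ≤ - D b0 b3 b4 := by
    apply unit_lower (y1 := b1) (z1 := b2) hM hb3 hb4 hb1 hb2 rfl rfl
    · rw [D_comm (b0 + b4)]
      have := D_nonpos (x := a0 + a4) ha1 ha3
      have := D_nonpos (x := c0 + c4) hc1 hc3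
      linarith
    · rw [D_comm (b0 + b3)]
      have := D_nonpos (x := a0 + a3) ha2 ha4
      have := D_nonpos' (x := c0 + c3) hc2 hc4
      linarith
  -- unit C on the pair 34
  have C34 : M - 3 * Real.log 2 ≤ - D c0 c3 c4 := by
    rw [D_comm]
    apply unit_lower (y1 := c1) (z1 := c2) hM hc4 hc3 hc1 hc2 rfl rfl
    · rw [D_comm (c0 + c3)]
      have := D_nonpos (x := a0 + a3) ha1 ha4
      have := D_nonpos (x := b0 + b3) hb1 hb4
      linarith
    · rw [D_comm (c0 + c4)]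
      have := D_nonpos (x := a0 + a4) ha2 ha3
      have := D_nonpos' (x := b0 + b4) hb2 hb3
      linarith
  have f1 := D_le_sp (x := a0) ha1 ha2
  have f2 := D_le_sp' (x := a0) ha3 ha4
  rcases le_total 0 a0 with h | h
  · have := sp_le_neg (show -a0 ≤ 0 by linarith)
    linarith
  · have := sp_le_neg h
    linarith


def base : Fin 3 → Fin 4 → Bool :=
  ![![false, false, true, true], ![false, true, false, true], ![false, true, true, false]]

theorem minority : ∀ r : Fin 3 → Bool, (∃ k, r k = false) → (∃ k, r k = true) →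
    ∃ (m : Fin 3) (t : Bool), ∀ k, r k = xor t (decide (k = m)) := by
  decide

theorem boolAux : ∀ a b t d : Bool, xor a b = xor t d → a = xor (!d) (xor b (!t)) := by decide

theorem boolAux2 : ∀ t t' x1 x2 x3 x4 x5 x6 x7 : Bool, x4 ≠ x3 →
    (xor x1 x2) = xor t x6 → (xor x1 x2) = xor t' x6 → (xor x4 x5) = xor t x7 →
    (xor x3 x5) = xor t' x7 → False := by decide

theorem inj3 : ∀ m1 m2 m3 : Fin 3, m1 ≠ m2 → m1 ≠ m3 → m2 ≠ m3 →
    Function.Injective (![m1, m2, m3] : Fin 3 → Fin 3) := by decide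

theorem comb (s : Fin 3 → Fin 4 → Bool)
    (h : ∀ i j, i ≠ j → (∃ k, s k i = s k j) ∧ (∃ k, s k i ≠ s k j)) :
    ∃ (v : Fin 4 → Bool) (ε : Fin 3 → Bool) (π : Equiv.Perm (Fin 3)),
      ∀ k i, s (π k) i = xor (base k i) (xor (ε k) (v i)) := by
  have col : ∀ i : Fin 4, i ≠ 0 → ∃ (m : Fin 3) (t : Bool), ∀ k, xor (s k i) (s k 0) = xor t (decide (k = m)) := by
    intro i hi
    obtain ⟨⟨k1, h1⟩, ⟨k2, h2⟩⟩ := h i 0 hi
    apply minority (fun k => xor (s k i) (s k 0))
    · exact ⟨k1, by simp [h1]⟩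
    · exact ⟨k2, by simpa using h2⟩
  obtain ⟨m1, t1, h1⟩ := col 1 (by decide)
  obtain ⟨m2, t2, h2⟩ := col 2 (by decide)
  obtain ⟨m3, t3, h3⟩ := col 3 (by decide)
  have ne : ∀ (i j : Fin 4) (m m' : Fin 3) (t t' : Bool), i ≠ j →
      (∀ k, xor (s k i) (s k 0) = xor t (decide (k = m))) →
      (∀ k, xor (s k j) (s k 0) = xor t' (decide (k = m'))) → m ≠ m' := by
    intro i j m m' t t' hij hi hj hm
    subst hm
    obtain ⟨⟨k1, h1⟩, ⟨k2, h2⟩⟩ := h i j hij
    have a1 := hi k1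
    have a2 := hj k1
    have b1 := hi k2
    have b2 := hj k2
    rw [h1] at a1
    exact boolAux2 _ _ _ _ _ _ _ _ _ h2 a1 a2 b1 b2
  have n12 := ne 1 2 m1 m2 t1 t2 (by decide) h1 h2
  have n13 := ne 1 3 m1 m3 t1 t3 (by decide) h1 h3
  have n23 := ne 2 3 m2 m3 t2 t3 (by decide) h2 h3
  have inj : Function.Injective (![m1, m2, m3] : Fin 3 → Fin 3) := inj3 m1 m2 m3 n12 n13 n23
  have bij : Function.Bijective (![m1, m2, m3] : Fin 3 → Fin 3) :=
    Finite.injective_iff_bijective.1 inj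
  refine ⟨![false, !t1, !t2, !t3], fun k => s ((![m1, m2, m3] : Fin 3 → Fin 3) k) 0, Equiv.ofBijective _ bij, ?_⟩
  have b1 : ∀ k, base k 1 = !decide ((![m1, m2, m3] : Fin 3 → Fin 3) k = m1) := by
    intro k; fin_cases k <;> simp [base, n12.symm, n13.symm]
  have b2 : ∀ k, base k 2 = !decide ((![m1, m2, m3] : Fin 3 → Fin 3) k = m2) := by
    intro k; fin_cases k <;> simp [base, n12, n23.symm]
  have b3 : ∀ k, base k 3 = !decide ((![m1, m2, m3] : Fin 3 → Fin 3) k = m3) := by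
    intro k; fin_cases k <;> simp [base, n13, n23]
  have b0 : ∀ k, base k 0 = false := by
    intro k; fin_cases k <;> rfl
  intro k i
  rw [Equiv.ofBijective_apply]
  have e1 := boolAux _ _ _ _ (h1 ((![m1, m2, m3] : Fin 3 → Fin 3) k))
  have e2 := boolAux _ _ _ _ (h2 ((![m1, m2, m3] : Fin 3 → Fin 3) k))
  have e3 := boolAux _ _ _ _ (h3 ((![m1, m2, m3] : Fin 3 → Fin 3) k))
  rw [← b1] at e1
  rw [← b2] at e2
  rw [← b3] at e3
  have hi : i = 0 ∨ i = 1 ∨ i = 2 ∨ i = 3 := by revert i; decide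
  rcases hi with rfl | rfl | rfl | rfl
  · rw [b0]; simp
  · simpa using e1
  · simpa using e2
  · simpa using e3

/-! ## Representations -/

def of (b : Bool) : ℝ := if b then 1 else 0
def sg (b : Bool) : ℝ := if b then -1 else 1

def Rep (G : (Fin 4 → ℝ) → ℝ) (w : Fin 3 → Fin 4 → ℝ) : Prop :=
  ∃ (β : ℝ) (b : Fin 4 → ℝ) (c : Fin 3 → ℝ),
    ∀ e : Fin 4 → ℝ, G e = β + ∑ i, b i * e i + ∑ k, sp (c k + ∑ i, w k i * e i)

theorem Rep.flipCoord {G : (Fin 4 → ℝ) → ℝ} {w : Fin 3 → Fin 4 → ℝ} (h : Rep G w)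
    (v : Fin 4 → Bool) :
    Rep (fun e => G (fun i => of (v i) + sg (v i) * e i)) (fun k i => sg (v i) * w k i) := by
  obtain ⟨β, b, c, h⟩ := h
  refine ⟨β + ∑ i, b i * of (v i), fun i => b i * sg (v i), fun k => c k + ∑ i, w k i * of (v i),
    fun e => ?_⟩
  beta_reduce
  rw [h]
  have h1 : ∀ k, c k + ∑ i, w k i * (of (v i) + sg (v i) * e i)
      = (c k + ∑ i, w k i * of (v i)) + ∑ i, sg (v i) * w k i * e i := by
    intro k
    rw [add_assoc, ← Finset.sum_add_distrib]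
    congr 1
    apply Finset.sum_congr rfl
    intros; ring
  have h2 : ∑ i, b i * (of (v i) + sg (v i) * e i)
      = ∑ i, b i * of (v i) + ∑ i, b i * sg (v i) * e i := by
    rw [← Finset.sum_add_distrib]
    apply Finset.sum_congr rfl
    intros; ring
  simp only [h1, h2]
  ring

theorem sp_sg (ε : Bool) (y : ℝ) : sp y = of ε * y + sp (sg ε * y) := by
  cases ε
  · simp [of, sg]
  · simp only [of, sg]
    rw [sp_eq]; simp

theorem Rep.flipUnit {G : (Fin 4 → ℝ) → ℝ} {w : Fin 3 → Fin 4 → ℝ} (h : Rep G w)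
    (ε : Fin 3 → Bool) :
    Rep G (fun k i => sg (ε k) * w k i) := by
  obtain ⟨β, b, c, h⟩ := h
  refine ⟨β + ∑ k, of (ε k) * c k, fun i => b i + ∑ k, of (ε k) * w k i, fun k => sg (ε k) * c k,
    fun e => ?_⟩
  beta_reduce
  rw [h]
  have h1 : ∀ k, sp (c k + ∑ i, w k i * e i) = of (ε k) * (c k + ∑ i, w k i * e i) +
      sp (sg (ε k) * c k + ∑ i, sg (ε k) * w k i * e i) := by
    intro k
    rw [sp_sg (ε k)]
    congr 2
    rw [mul_add, Finset.mul_sum]
    congr 1
    apply Finset.sum_congr rfl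
    intros; ring
  rw [Finset.sum_congr rfl (fun k _ => h1 k), Finset.sum_add_distrib]
  simp only [Fin.sum_univ_four, Fin.sum_univ_three]
  ring

theorem Rep.perm {G : (Fin 4 → ℝ) → ℝ} {w : Fin 3 → Fin 4 → ℝ} (h : Rep G w)
    (π : Equiv.Perm (Fin 3)) :
    Rep G (fun k i => w (π k) i) := by
  obtain ⟨β, b, c, h⟩ := h
  refine ⟨β, b, fun k => c (π k), fun e => ?_⟩
  beta_reduce
  rw [h]
  congr 1
  exact (Equiv.sum_comp π (fun k => sp (c k + ∑ i, w k i * e i))).symm


noncomputable def ind (S : Finset (Fin 4)) : Fin 4 → ℝ := fun i => if i ∈ S then 1 else 0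

theorem ind_insert {S : Finset (Fin 4)} {i : Fin 4} (hi : i ∉ S) :
    ind (insert i S) = fun l => ind S l + (if l = i then 1 else 0) := by
  funext l
  unfold ind
  by_cases h : l = i
  · subst h; simp [hi]
  · simp [h]

theorem lin_ind (w : Fin 4 → ℝ) (S : Finset (Fin 4)) : ∑ l, w l * ind S l = ∑ l ∈ S, w l := by
  unfold ind
  simp

theorem sgn_ind (S : Finset (Fin 4)) : ∏ l, (1 - 2 * ind S l) = (-1 : ℝ) ^ S.card := by
  have : ∀ l, (1 - 2 * ind S l) = if l ∈ S then (-1 : ℝ) else 1 := by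
    intro l; unfold ind; split_ifs <;> norm_num
  simp only [this]
  rw [Finset.prod_ite_mem]
  simp

def Near (G : (Fin 4 → ℝ) → ℝ) (C σ : ℝ) : Prop :=
  ∀ x : Fin 4 → ℝ, (∀ i, x i = 0 ∨ x i = 1) → |G x - C - 4 * σ * ∏ i, (1 - 2 * x i)| ≤ 1 / 2

theorem Near.flip {G : (Fin 4 → ℝ) → ℝ} {C σ : ℝ} (h : Near G C σ) (v : Fin 4 → Bool) :
    Near (fun e => G (fun i => of (v i) + sg (v i) * e i)) C (σ * ∏ i, sg (v i)) := by
  intro x hx
  have h1 := h (fun i => of (v i) + sg (v i) * x i) (by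
    intro i
    rcases hx i with h | h <;> rw [h] <;> cases v i <;> simp [of, sg])
  have h2 : ∀ i, (1 - 2 * (of (v i) + sg (v i) * x i)) = sg (v i) * (1 - 2 * x i) := by
    intro i
    cases v i <;> simp [of, sg]; ring
  simp only [h2, Finset.prod_mul_distrib] at h1
  beta_reduce
  have h3 : 4 * (σ * ∏ i, sg (v i)) * ∏ i, (1 - 2 * x i) = 4 * σ * ((∏ i, sg (v i)) * ∏ i, (1 - 2 * x i)) := by ring
  rw [h3]
  exact h1

theorem face {G : (Fin 4 → ℝ) → ℝ} {w : Fin 3 → Fin 4 → ℝ} {β : ℝ} {b : Fin 4 → ℝ} {c : Fin 3 → ℝ}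
    (h : ∀ e : Fin 4 → ℝ, G e = β + ∑ i, b i * e i + ∑ k, sp (c k + ∑ i, w k i * e i))
    {C σ : ℝ} (hG : Near G C σ) (S : Finset (Fin 4)) {i j : Fin 4} (hij : i ≠ j) (hi : i ∉ S) (hj : j ∉ S) :
    |∑ k, D (c k + ∑ l ∈ S, w k l) (w k i) (w k j) - 16 * σ * (-1) ^ S.card| ≤ 2 := by
  have hi' : i ∉ insert j S := by simp [hi, hij]
  have h01 : ∀ S : Finset (Fin 4), ∀ l, ind S l = 0 ∨ ind S l = 1 := by
    intro S l; unfold ind; split_ifs <;> simp
  have g0 := hG _ (h01 S)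
  have g1 := hG _ (h01 (insert i S))
  have g2 := hG _ (h01 (insert j S))
  have g3 := hG _ (h01 (insert i (insert j S)))
  rw [sgn_ind, h] at g0 g1 g2 g3
  simp only [lin_ind] at g0 g1 g2 g3
  rw [Finset.card_insert_of_notMem hi] at g1
  rw [Finset.card_insert_of_notMem hj] at g2
  rw [Finset.card_insert_of_notMem hi', Finset.card_insert_of_notMem hj] at g3
  simp only [Finset.sum_insert hi, Finset.sum_insert hj, Finset.sum_insert hi'] at g1 g2 g3
  have key : ∑ k, D (c k + ∑ l ∈ S, w k l) (w k i) (w k j) =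
      ∑ k, sp (c k + ∑ l ∈ S, w k l) + ∑ k, sp (c k + (w k i + (w k j + ∑ l ∈ S, w k l)))
      - ∑ k, sp (c k + (w k i + ∑ l ∈ S, w k l)) - ∑ k, sp (c k + (w k j + ∑ l ∈ S, w k l)) := by
    rw [← Finset.sum_add_distrib, ← Finset.sum_sub_distrib, ← Finset.sum_sub_distrib]
    apply Finset.sum_congr rfl
    intro k _
    unfold D
    have e1 : c k + ∑ l ∈ S, w k l + w k i + w k j = c k + (w k i + (w k j + ∑ l ∈ S, w k l)) := by ring
    have e2 : c k + ∑ l ∈ S, w k l + w k i = c k + (w k i + ∑ l ∈ S, w k l) := by ring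
    have e3 : c k + ∑ l ∈ S, w k l + w k j = c k + (w k j + ∑ l ∈ S, w k l) := by ring
    rw [e1, e2, e3]
  rw [key]
  rw [abs_le] at *
  have hp1 : (-1 : ℝ) ^ (S.card + 1) = - (-1) ^ S.card := by ring
  have hp2 : (-1 : ℝ) ^ (S.card + 1 + 1) = (-1) ^ S.card := by ring
  rw [hp1] at g1 g2
  rw [hp2] at g3
  constructor <;> linarith [g0.1, g0.2, g1.1, g1.2, g2.1, g2.2, g3.1, g3.2]

theorem pair_of {X1 X2 p q : Fin 3 → ℝ} (h1 : 0 < ∑ k, D (X1 k) (p k) (q k))
    (h2 : ∑ k, D (X2 k) (p k) (q k) < 0) : (∃ k, 0 < p k * q k) ∧ (∃ k, p k * q k < 0) := by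
  constructor
  · by_contra hcon
    push Not at hcon
    have : ∑ k, D (X1 k) (p k) (q k) ≤ 0 := by
      apply Finset.sum_nonpos
      intro k _
      rcases le_total 0 (p k) with hp | hp <;> rcases le_total 0 (q k) with hq | hq
      · rcases (mul_nonneg hp hq).antisymm (hcon k) |>.symm |> mul_eq_zero.1 with h | h
        · rw [h]; unfold D; simp
        · rw [h]; unfold D; simp
      · exact D_nonpos hp hq
      · exact D_nonpos' hp hq
      · rcases (mul_nonneg_of_nonpos_of_nonpos hp hq).antisymm (hcon k) |>.symm |> mul_eq_zero.1 with h | h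
        · rw [h]; unfold D; simp
        · rw [h]; unfold D; simp
    linarith
  · by_contra hcon
    push Not at hcon
    have : 0 ≤ ∑ k, D (X2 k) (p k) (q k) := by
      apply Finset.sum_nonneg
      intro k _
      rcases le_total 0 (p k) with hp | hp <;> rcases le_total 0 (q k) with hq | hq
      · exact D_nonneg hp hq
      · rcases (mul_nonpos_of_nonneg_of_nonpos hp hq).antisymm (hcon k) |> mul_eq_zero.1 with h | h
        · rw [h]; unfold D; simp
        · rw [h]; unfold D; simp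
      · rcases (mul_nonpos_of_nonpos_of_nonneg hp hq).antisymm (hcon k) |> mul_eq_zero.1 with h | h
        · rw [h]; unfold D; simp
        · rw [h]; unfold D; simp
      · exact D_nonneg' hp hq
    linarith


theorem core_base {G : (Fin 4 → ℝ) → ℝ} {w : Fin 3 → Fin 4 → ℝ} (hrep : Rep G w) {C σ : ℝ}
    (hσ : σ = 1 ∨ σ = -1) (hG : Near G C σ) (hs : ∀ k i, 0 ≤ sg (base k i) * w k i) : False := by
  obtain ⟨β, b, c, h⟩ := hrep
  have l2 : 0 < Real.log 2 := Real.log_pos (by norm_num)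
  have l2' : Real.log 2 < 1 := by have := Real.log_two_lt_d9; linarith
  have s00 : 0 ≤ w 0 0 := by simpa [base, sg] using hs 0 0
  have s01 : 0 ≤ w 0 1 := by simpa [base, sg] using hs 0 1
  have s02 : w 0 2 ≤ 0 := by simpa [base, sg] using hs 0 2
  have s03 : w 0 3 ≤ 0 := by simpa [base, sg] using hs 0 3
  have s10 : 0 ≤ w 1 0 := by simpa [base, sg] using hs 1 0
  have s11 : w 1 1 ≤ 0 := by simpa [base, sg] using hs 1 1
  have s12 : 0 ≤ w 1 2 := by simpa [base, sg] using hs 1 2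
  have s13 : w 1 3 ≤ 0 := by simpa [base, sg] using hs 1 3
  have s20 : 0 ≤ w 2 0 := by simpa [base, sg] using hs 2 0
  have s21 : w 2 1 ≤ 0 := by simpa [base, sg] using hs 2 1
  have s22 : w 2 2 ≤ 0 := by simpa [base, sg] using hs 2 2
  have s23 : 0 ≤ w 2 3 := by simpa [base, sg] using hs 2 3
  have F0 : ∀ i j : Fin 4, i ≠ j →
      |D (c 0) (w 0 i) (w 0 j) + D (c 1) (w 1 i) (w 1 j) + D (c 2) (w 2 i) (w 2 j) - 16 * σ| ≤ 2 := by
    intro i j hij
    have := face h hG ∅ hij (by simp) (by simp)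
    simpa [Fin.sum_univ_three] using this
  have F1 : ∀ i j l : Fin 4, i ≠ j → i ≠ l → j ≠ l →
      |D (c 0 + w 0 l) (w 0 i) (w 0 j) + D (c 1 + w 1 l) (w 1 i) (w 1 j)
        + D (c 2 + w 2 l) (w 2 i) (w 2 j) + 16 * σ| ≤ 2 := by
    intro i j l hij hil hjl
    have := face h hG {l} hij (by simpa using hil) (by simpa using hjl)
    simpa [Fin.sum_univ_three] using this
  rcases hσ with rfl | rfl
  · have f1 := (abs_le.1 (F0 0 1 (by decide))).1
    have f2 := (abs_le.1 (F0 2 3 (by decide))).1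
    exact coreA s00 s01 s02 s03 s10 s11 s12 s13 s20 s21 s22 s23 (by linarith) (by linarith)
  · have f1 := (abs_le.1 (F0 0 1 (by decide))).1
    have f2 := (abs_le.1 (F0 2 3 (by decide))).1
    have g1 := (abs_le.1 (F1 0 2 1 (by decide) (by decide) (by decide))).1
    have g2 := (abs_le.1 (F1 0 2 3 (by decide) (by decide) (by decide))).1
    have g3 := (abs_le.1 (F1 1 3 0 (by decide) (by decide) (by decide))).1
    have g4 := (abs_le.1 (F1 1 3 2 (by decide) (by decide) (by decide))).1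
    have g5 := (abs_le.1 (F1 0 3 1 (by decide) (by decide) (by decide))).1
    have g6 := (abs_le.1 (F1 0 3 2 (by decide) (by decide) (by decide))).1
    have g7 := (abs_le.1 (F1 1 2 0 (by decide) (by decide) (by decide))).1
    have g8 := (abs_le.1 (F1 1 2 3 (by decide) (by decide) (by decide))).1
    exact coreB (M := 14) (K := 18) s00 s01 s02 s03 s10 s11 s12 s13 s20 s21 s22 s23 (by linarith)
      (by linarith) (by linarith) (by linarith) (by linarith) (by linarith) (by linarith)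
      (by linarith) (by linarith) (by linarith) (by linarith) (by linarith)

theorem sg_xor (a b : Bool) : sg (xor a b) = sg a * sg b := by
  cases a <;> cases b <;> simp [sg]

theorem no_rep {G : (Fin 4 → ℝ) → ℝ} {w : Fin 3 → Fin 4 → ℝ} (hrep : Rep G w) {C : ℝ}
    (hG : Near G C 1) : False := by
  have hp : ∀ i j, i ≠ j → (∃ k, 0 < w k i * w k j) ∧ (∃ k, w k i * w k j < 0) := by
    intro i j hij
    obtain ⟨β, b, c, h⟩ := hrep
    obtain ⟨l, hl1, hl2⟩ : ∃ l : Fin 4, i ≠ l ∧ j ≠ l := by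
      clear h hG; revert i j; decide
    have f0 := face h hG ∅ hij (by simp) (by simp)
    have f1 := face h hG {l} hij (by simpa using hl1) (by simpa using hl2)
    simp only [Finset.card_empty, pow_zero, Finset.card_singleton, pow_one] at f0 f1
    rw [abs_le] at f0 f1
    exact pair_of (X1 := fun k => c k + ∑ l ∈ (∅ : Finset (Fin 4)), w k l)
      (X2 := fun k => c k + ∑ l' ∈ ({l} : Finset (Fin 4)), w k l') (by linarith [f0.1])
      (by linarith [f1.2])
  have hs : ∀ i j, i ≠ j → (∃ k, decide (w k i < 0) = decide (w k j < 0)) ∧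
      (∃ k, decide (w k i < 0) ≠ decide (w k j < 0)) := by
    intro i j hij
    obtain ⟨⟨k1, h1⟩, ⟨k2, h2⟩⟩ := hp i j hij
    refine ⟨⟨k1, ?_⟩, ⟨k2, ?_⟩⟩
    · rcases pos_and_pos_or_neg_and_neg_of_mul_pos h1 with ⟨ha, hb⟩ | ⟨ha, hb⟩
      · rw [decide_eq_false (not_lt.2 ha.le), decide_eq_false (not_lt.2 hb.le)]
      · rw [decide_eq_true ha, decide_eq_true hb]
    · rcases mul_neg_iff.1 h2 with ⟨ha, hb⟩ | ⟨ha, hb⟩
      · rw [decide_eq_false (not_lt.2 ha.le), decide_eq_true hb]; decide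
      · rw [decide_eq_true ha, decide_eq_false (not_lt.2 hb.le)]; decide
  obtain ⟨v, ε, π, hv⟩ := comb (fun k i => decide (w k i < 0)) hs
  have hrep' := ((hrep.flipCoord v).perm π).flipUnit ε
  have hG' := hG.flip v
  have hσ : (1 : ℝ) * ∏ i, sg (v i) = 1 ∨ (1 : ℝ) * ∏ i, sg (v i) = -1 := by
    rw [Fin.prod_univ_four]
    cases v 0 <;> cases v 1 <;> cases v 2 <;> cases v 3 <;> simp [sg]
  refine core_base hrep' hσ hG' ?_
  intro k i
  have h1 : 0 ≤ sg (decide (w (π k) i < 0)) * w (π k) i := by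
    by_cases h : w (π k) i < 0
    · simp [h, sg]; linarith
    · simp [h, sg]; linarith
  rw [hv k i, sg_xor, sg_xor] at h1
  calc (0 : ℝ) ≤ _ := h1
    _ = _ := by ring

/-! ## The restricted Boltzmann machine -/

theorem weight_eq (n m : ℕ) (W : Fin n → Fin m → ℝ) (b : Fin n → ℝ) (c : Fin m → ℝ)
    (v : Fin n → Fin 2) : weight n m W b c v =
      Real.exp (∑ i, b i * ((v i : ℕ) : ℝ)) *
        ∏ j, (1 + Real.exp (c j + ∑ i, W i j * ((v i : ℕ) : ℝ))) := by
  have h1 : ∀ j, (1 + Real.exp (c j + ∑ i, W i j * ((v i : ℕ) : ℝ))) =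
      ∑ t : Fin 2, Real.exp ((c j + ∑ i, W i j * ((v i : ℕ) : ℝ)) * ((t : ℕ) : ℝ)) := by
    intro j
    rw [Fin.sum_univ_two]; simp
  simp only [h1]
  rw [Finset.prod_univ_sum, Finset.mul_sum, Fintype.piFinset_univ]
  unfold weight
  apply Finset.sum_congr rfl
  intro h _
  rw [← Real.exp_sum, ← Real.exp_add]
  congr 1
  rw [add_assoc]
  congr 1
  rw [Finset.sum_comm, ← Finset.sum_add_distrib]
  apply Finset.sum_congr rfl
  intro j _
  rw [add_mul, Finset.sum_mul]
  congr 1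
  apply Finset.sum_congr rfl
  intros; ring

theorem weight_pos (n m : ℕ) (W : Fin n → Fin m → ℝ) (b : Fin n → ℝ) (c : Fin m → ℝ)
    (v : Fin n → Fin 2) : 0 < weight n m W b c v := by
  unfold weight
  apply Finset.sum_pos
  · intros; exact Real.exp_pos _
  · exact Finset.univ_nonempty

theorem log_weight (n m : ℕ) (W : Fin n → Fin m → ℝ) (b : Fin n → ℝ) (c : Fin m → ℝ)
    (v : Fin n → Fin 2) : Real.log (weight n m W b c v) =
      ∑ i, b i * ((v i : ℕ) : ℝ) + ∑ j, sp (c j + ∑ i, W i j * ((v i : ℕ) : ℝ)) := by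
  rw [weight_eq, Real.log_mul (Real.exp_pos _).ne', Real.log_exp, Real.log_prod]
  · rfl
  · intros; positivity
  · apply ne_of_gt; apply Finset.prod_pos; intros; positivity

theorem rep_of_le {m : ℕ} (hm : m ≤ 3) (W : Fin 4 → Fin m → ℝ) (b : Fin 4 → ℝ) (c : Fin m → ℝ) (Z : ℝ) :
    ∃ w, Rep (fun x => (∑ i, b i * x i + ∑ j, sp (c j + ∑ i, W i j * x i)) - Z) w := by
  interval_cases m
  · refine ⟨fun _ _ => 0, -Z - 3 * sp 0, b, fun _ => 0, fun e => ?_⟩
    simp [Fin.sum_univ_three]; ring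
  · refine ⟨![fun i => W i 0, fun _ => 0, fun _ => 0], -Z - 2 * sp 0, b, ![c 0, 0, 0], fun e => ?_⟩
    simp [Fin.sum_univ_three]; ring
  · refine ⟨![fun i => W i 0, fun i => W i 1, fun _ => 0], -Z - sp 0, b, ![c 0, c 1, 0], fun e => ?_⟩
    simp [Fin.sum_univ_three]; ring
  · refine ⟨fun k i => W i k, -Z, b, c, fun e => ?_⟩
    ring

theorem main : ∀ m : ℕ, m ≤ 3 → closure (RBM 4 m) ≠ stdSimplex ℝ (Fin 4 → Fin 2) := by
  intro m hm hcl
  set q : (Fin 4 → Fin 2) → ℝ := fun v => Real.exp (4 * ∏ i, (1 - 2 * ((v i : ℕ) : ℝ))) with hq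
  have hqpos : ∀ v, 0 < q v := fun v => Real.exp_pos _
  set Z : ℝ := ∑ v, q v with hZ
  have hZpos : 0 < Z := Finset.sum_pos (fun v _ => hqpos v) Finset.univ_nonempty
  set p : (Fin 4 → Fin 2) → ℝ := fun v => q v / Z with hp
  have hppos : ∀ v, 0 < p v := fun v => div_pos (hqpos v) hZpos
  have hpmem : p ∈ stdSimplex ℝ (Fin 4 → Fin 2) := by
    refine ⟨fun v => (hppos v).le, ?_⟩
    simp only [hp]
    rw [← Finset.sum_div]
    exact div_self hZpos.ne'
  rw [← hcl] at hpmem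
  have hU : {r : (Fin 4 → Fin 2) → ℝ | ∀ v, |Real.log (r v) - Real.log (p v)| < 1 / 2} ∈ nhds p := by
    have : ∀ v, ∀ᶠ r : (Fin 4 → Fin 2) → ℝ in nhds p, |Real.log (r v) - Real.log (p v)| < 1 / 2 := by
      intro v
      have hc : ContinuousAt (fun r : (Fin 4 → Fin 2) → ℝ => Real.log (r v)) p :=
        (continuousAt_apply v p).log (hppos v).ne'
      have := Metric.tendsto_nhds.1 hc (1/2) (by norm_num)
      simpa [Real.dist_eq] using this
    exact Filter.eventually_all.2 this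
  obtain ⟨r, hrU, hrR⟩ := mem_closure_iff_nhds.1 hpmem _ hU
  obtain ⟨W, b, c, hr⟩ := hrR
  set Z' : ℝ := ∑ v', weight 4 m W b c v' with hZ'
  have hZ'pos : 0 < Z' := Finset.sum_pos (fun v _ => weight_pos _ _ _ _ _ _) Finset.univ_nonempty
  obtain ⟨w, hw⟩ := rep_of_le hm W b c (Real.log Z')
  refine no_rep hw (C := - Real.log Z) ?_
  intro x hx
  set v : Fin 4 → Fin 2 := fun i => if x i = 0 then 0 else 1 with hv
  have hxv : ∀ i, x i = ((v i : ℕ) : ℝ) := by
    intro i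
    rcases hx i with h | h
    · simp [hv, h]
    · simp [hv, h]
  have h1 := hrU v
  have h2 : Real.log (r v) = (∑ i, b i * x i + ∑ j, sp (c j + ∑ i, W i j * x i)) - Real.log Z' := by
    rw [hr v, Real.log_div (weight_pos _ _ _ _ _ _).ne' hZ'pos.ne', log_weight]
    simp only [hxv]
  have h3 : Real.log (p v) = 4 * ∏ i, (1 - 2 * x i) - Real.log Z := by
    simp only [hp, hq]
    rw [Real.log_div (Real.exp_pos _).ne' hZpos.ne', Real.log_exp]
    simp only [hxv]
  rw [h2, h3] at h1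
  have h4 : (∑ i, b i * x i + ∑ j, sp (c j + ∑ i, W i j * x i)) - Real.log Z' - -Real.log Z -
      4 * 1 * ∏ i, (1 - 2 * x i) = (∑ i, b i * x i + ∑ j, sp (c j + ∑ i, W i j * x i)) - Real.log Z' -
      (4 * ∏ i, (1 - 2 * x i) - Real.log Z) := by ring
  beta_reduce
  rw [h4]
  exact h1.le

end Pool.Agent.Results.MP_dabbe0_pr.NotUniversal43
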